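import Mathlib
import Pool.Agent.TH396.PS.Key4

set_option autoImplicit false

open Filter Topology

namespace Pool.Agent.Results.MP_cacba2_co.TwoShifts

universe u

variable {G : Type u} [Group G]

open Classical in
/-- `Φ` is a left Folner sequence: its members are nonempty finite sets and
`|gΦ_N ∩ Φ_N| / |Φ_N| → 1` for every `g`. -/
def IsLeftFolner (Φ : ℕ → Finset G) : Prop :=
  (∀ N, (Φ N).Nonempty) ∧ ∀ g : G, Tendsto
    (fun N => ((((Φ N).image (fun x => g * x)) ∩ Φ N).card : ℝ) / (Φ N).card) atTop (𝓝 1)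

open Classical in
/-- `Φ` is a right Folner sequence: its members are nonempty finite sets and
`|Φ_N g ∩ Φ_N| / |Φ_N| → 1` for every `g`. -/
def IsRightFolner (Φ : ℕ → Finset G) : Prop :=
  (∀ N, (Φ N).Nonempty) ∧ ∀ g : G, Tendsto
    (fun N => ((((Φ N).image (fun x => x * g)) ∩ Φ N).card : ℝ) / (Φ N).card) atTop (𝓝 1)

open Classical in
/-- the upper density `limsup_N |A ∩ Φ_N| / |Φ_N|` -/
noncomputable def upperDensity (Φ : ℕ → Finset G) (A : Set G) : ℝ :=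
  limsup (fun N => (((Φ N).filter (fun x => x ∈ A)).card : ℝ) / (Φ N).card) atTop

/-- positive upper Banach density: positive upper density along some two-sided Folner sequence -/
def PosUpperBanachDensity (A : Set G) : Prop :=
  ∃ Φ : ℕ → Finset G, IsLeftFolner Φ ∧ IsRightFolner Φ ∧ 0 < upperDensity Φ A

/-- square absolutely continuous groups -/
def SquareAbsCont (G : Type u) [Group G] : Prop :=
  ∃ Φ Ψ : ℕ → Finset G, IsLeftFolner Φ ∧ IsLeftFolner Ψ ∧
    ∀ ε : ℝ, 0 < ε → ∃ δ : ℝ, 0 < δ ∧ ∀ u : G → ℝ, (∀ g, 0 ≤ u g ∧ u g ≤ 1) →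
      limsup (fun N => (∑ g ∈ Φ N, u g) / (Φ N).card) atTop < δ →
      limsup (fun N => (∑ g ∈ Ψ N, u (g ^ 2)) / (Ψ N).card) atTop < ε

/-- `B ◁ B = {b_i b_j : i < j}` -/
def lhd (b : ℕ → G) : Set G := {x | ∃ i j, i < j ∧ x = b i * b j}

/-- `B ▷ B = {b_i b_j : i > j}` -/
def rhd (b : ℕ → G) : Set G := {x | ∃ i j, j < i ∧ x = b i * b j}

/-- `B ⊙ B = {b_i b_j : i ≠ j}` -/
def odot (b : ℕ → G) : Set G := {x | ∃ i j, i ≠ j ∧ x = b i * b j}

/-- the left shift `t⁻¹A = {t⁻¹ a : a ∈ A}` -/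
def leftShift (t : G) (A : Set G) : Set G := (fun a => t⁻¹ * a) '' A

/-- the right shift `A r⁻¹ = {a r⁻¹ : a ∈ A}` -/
def rightShift (r : G) (A : Set G) : Set G := (fun a => a * r⁻¹) '' A

/-- Let `G` be an infinite countable square absolutely continuous group and `A ⊆ G` a set of
positive upper Banach density. Then there are an injective sequence `b` with all terms in `A`
and `t, r ∈ G` with `B ◁ B ⊆ t⁻¹A` and `B ▷ B ⊆ A r⁻¹`; in particular
`B ⊙ B ⊆ t⁻¹A ∪ A r⁻¹`. -/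
theorem result (G : Type u) [Group G] [Countable G] [Infinite G] (hG : SquareAbsCont G)
    (A : Set G) (hA : PosUpperBanachDensity A) :
    ∃ (b : ℕ → G) (t r : G), Function.Injective b ∧ (∀ i, b i ∈ A) ∧
      lhd b ⊆ leftShift t A ∧ rhd b ⊆ rightShift r A ∧
      odot b ⊆ leftShift t A ∪ rightShift r A := by
  classical
  obtain ⟨Φ, Ψ, ⟨hΦ1, hΦ2⟩, ⟨hΨ1, hΨ2⟩, hP⟩ := hG
  obtain ⟨Θ, ⟨hΘ1, hΘ2⟩, ⟨_, hΘ3⟩, hd⟩ := hA
  have hav : ∀ N, Pool.Agent.TH396.PS.avg (Θ N) (A.indicator 1) =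
      (((Θ N).filter (fun x => x ∈ A)).card : ℝ) / (Θ N).card := by
    intro N
    unfold Pool.Agent.TH396.PS.avg
    congr 1
    rw [Finset.card_filter]
    push_cast
    refine Finset.sum_congr rfl (fun x _ => ?_)
    by_cases hx : x ∈ A <;> simp [hx]
  obtain ⟨α, hα0, hα1⟩ := exists_between hd
  have hfreq : ∃ᶠ N in atTop, α ≤ Pool.Agent.TH396.PS.avg (Θ N) (A.indicator 1) := by
    have hcob : IsCoboundedUnder (· ≤ ·) atTop
        (fun N => (((Θ N).filter (fun x => x ∈ A)).card : ℝ) / (Θ N).card) := by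
      apply IsBoundedUnder.isCoboundedUnder_flip
      exact isBoundedUnder_of ⟨0, fun N => by positivity⟩
    have := frequently_lt_of_lt_limsup hcob hα1
    refine this.mono (fun N hN => ?_)
    rw [hav]
    exact hN.le
  obtain ⟨m, hm⟩ := Pool.Agent.TH396.PS.exists_mean Θ hΘ1
    (fun g => by convert hΘ2 g) (fun g => by convert hΘ3 g) A α hfreq
  have hsac := fun ε (hε : ε > 0) => Pool.Agent.TH396.PS.sac_mean Φ Ψ hΦ1
    (fun g => by convert hΦ2 g) hΨ1 (fun g => by convert hΨ2 g) hP ε hε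
  obtain ⟨F, p, hp⟩ := Pool.Agent.TH396.PS.exists_good m A (hα0.trans_le hm) hsac
  obtain ⟨b, t, r, hb1, hb2, hb3⟩ := Pool.Agent.TH396.PS.extract A F p hp
  have h1 : lhd b ⊆ leftShift t A := by
    rintro x ⟨i, j, hij, rfl⟩
    exact ⟨t * (b i * b j), (hb3 i j hij).1, by simp⟩
  have h2 : rhd b ⊆ rightShift r A := by
    rintro x ⟨i, j, hij, rfl⟩
    exact ⟨(b i * b j) * r, (hb3 j i hij).2, by simp⟩
  refine ⟨b, t, r, hb1, hb2, h1, h2, ?_⟩
  rintro x ⟨i, j, hij, rfl⟩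
  rcases lt_or_gt_of_ne hij with h | h
  · exact Or.inl (h1 ⟨i, j, h, rfl⟩)
  · exact Or.inr (h2 ⟨i, j, h, rfl⟩)

end Pool.Agent.Results.MP_cacba2_co.TwoShifts
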